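import Pool.Agent.UTR.Stmts

/-!
# UTR, row PEL (helper9): peelable hypergraphs
-/

set_option autoImplicit false

namespace Pool.Agent.UTR.H9

/-- PEL -/
theorem pel (lef : LEFStmt) : PELStmt := by
  intro n w μ hμ S hS
  induction hS with
  | base i =>
    intro _
    exact Chain.base i
  | step S l hl _ hL ih =>
    intro h
    exact Chain.step S l hl (ih (lef n w S l hl hL μ hμ h)) h

end Pool.Agent.UTR.H9
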