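import Pool.Agent.UTR.Stmts

/-!
# UTR, row TRE (helper9): forests are peelable
-/

set_option autoImplicit false

namespace Pool.Agent.UTR.H9

/-- In a finite acyclic graph some vertex has at most one neighbour. -/
theorem exists_leaf {V : Type*} [Finite V] [Nonempty V] (H : SimpleGraph V) (hH : H.IsAcyclic) :
    ∃ v : V, ∃ u : V, ∀ w : V, H.Adj v w → w = u := by
  obtain ⟨a, v, p, hp, hmax⟩ := SimpleGraph.Walk.exists_isPath_forall_isPath_length_le_length H
  refine ⟨v, p.penultimate, fun w hw => ?_⟩
  by_cases h : w ∈ p.support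
  · exact hH.eq_penultimate_of_adj_end hp hw h
  · exfalso
    have h1 := hmax _ _ (p.concat hw) (hp.concat h hw)
    rw [SimpleGraph.Walk.length_concat] at h1
    omega

/-- TRE -/
theorem tre : TREStmt := by
  intro n G hG w hw S
  classical
  induction hc : S.card using Nat.strong_induction_on generalizing S with
  | _ c ih =>
  intro hne
  subst hc
  by_cases h1 : S.card = 1
  · obtain ⟨i, rfl⟩ := Finset.card_eq_one.1 h1
    exact Peel.base i
  have h2 : 1 < S.card := by
    have := hne.card_pos
    omega
  have : Nonempty (S : Set (Fin n)) := hne.to_subtype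
  obtain ⟨⟨l, hl⟩, ⟨u, hu⟩, hlu⟩ := exists_leaf (G.induce (S : Set (Fin n))) (hG.induce _)
  have hl' : l ∈ S := hl
  have key : ∀ k ∈ S, G.Adj l k → k = u := by
    intro k hk hadj
    have h3 := hlu ⟨k, hk⟩ hadj
    exact congrArg Subtype.val h3
  have hS' : (S.erase l).card = S.card - 1 := Finset.card_erase_of_mem hl'
  have hP : Peel w (S.erase l) := ih (S.erase l).card (by omega) (S.erase l) rfl
    (Finset.card_pos.1 (by omega))
  have hins : insert l (S.erase l) = S := Finset.insert_erase hl'
  have hstep := Peel.step (w := w) (S.erase l) l (Finset.notMem_erase l S) hP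
  rw [hins] at hstep
  apply hstep
  refine ⟨{l, u}, fun B hB hlB => ?_⟩
  rw [hins]
  by_cases hBc : 2 ≤ B.card
  · obtain ⟨i, j, hij, rfl⟩ := hw B hB hBc
    rw [Finset.mem_insert, Finset.mem_singleton] at hlB
    obtain ⟨k, hlk, hset⟩ : ∃ k, G.Adj l k ∧ ({i, j} : Finset (Fin n)) = {l, k} := by
      rcases hlB with rfl | rfl
      · exact ⟨j, hij, rfl⟩
      · exact ⟨i, hij.symm, Finset.pair_comm _ _⟩
    rw [hset]
    by_cases hk : k ∈ S
    · right
      rw [key k hk hlk]
      apply Finset.inter_eq_left.2
      intro x hx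
      rw [Finset.mem_insert, Finset.mem_singleton] at hx
      rcases hx with rfl | rfl
      · exact hl'
      · exact hu
    · left
      ext x
      rw [Finset.mem_inter, Finset.mem_insert, Finset.mem_singleton, Finset.mem_singleton]
      constructor
      · rintro ⟨rfl | rfl, hx⟩
        · rfl
        · exact absurd hx hk
      · rintro rfl
        exact ⟨Or.inl rfl, hl'⟩
  · left
    have h3 : B = {l} := by
      symm
      apply Finset.eq_of_subset_of_card_le (Finset.singleton_subset_iff.2 hlB)
      rw [Finset.card_singleton]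
      omega
    rw [h3]
    exact Finset.inter_eq_left.2 (Finset.singleton_subset_iff.2 hl')

end Pool.Agent.UTR.H9
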